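import Mathlib
import Pool.Agent.W335.EA.Final

/-!
# MP_2bb948: the generic group with a bi-invariant metric is extremely amenable
-/

set_option autoImplicit false

namespace Pool.Agent.Results.MP_2bb948_al.GenericGroupExtremelyAmenable

open Set Filter Topology

universe u

/-- `ρ` is a bi-invariant metric on the free group `F_∞` with values in `[0, 1]`. -/
def IsBiMetric (ρ : FreeGroup ℕ → FreeGroup ℕ → ℝ) : Prop :=
  (∀ g h, ρ g h = 0 ↔ g = h) ∧ (∀ g h, ρ g h = ρ h g) ∧ (∀ g h k, ρ g k ≤ ρ g h + ρ h k) ∧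
    (∀ g h k, ρ (k * g) (k * h) = ρ g h) ∧ (∀ g h k, ρ (g * k) (h * k) = ρ g h) ∧
    ∀ g h, ρ g h ≤ 1

/-- The Polish space of the bi-invariant metrics on `F_∞` with values in `[0, 1]`, with the topology
of pointwise convergence. -/
abbrev MetricsD : Type := {ρ : FreeGroup ℕ → FreeGroup ℕ → ℝ // IsBiMetric ρ}

/-- The complete metric group `G` is the completion of `(F_∞, ρ)`, up to an isometric isomorphism. -/
structure IsCompletionOf (ρ : MetricsD) (G : Type) [Group G] [MetricSpace G] : Prop where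
  complete : CompleteSpace G
  left : ∀ a b c : G, dist (c * a) (c * b) = dist a b
  right : ∀ a b c : G, dist (a * c) (b * c) = dist a b
  dense : ∃ φ : FreeGroup ℕ →* G, (∀ g h, dist (φ g) (φ h) = ρ.1 g h) ∧ DenseRange φ

/-- `G` is the generic group: the completions of `(F_∞, ρ)` are isometrically isomorphic to `G`, for
comeagerly many `ρ`. -/
def IsGenericGroup (G : Type) [Group G] [MetricSpace G] : Prop :=
  ∀ᶠ ρ in residual MetricsD, IsCompletionOf ρ G

/-- Every continuous action on a nonempty compact Hausdorff space has a fixed point. -/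
def IsExtremelyAmenable (G : Type) [Group G] [TopologicalSpace G] : Prop :=
  ∀ (X : Type u) [TopologicalSpace X] [CompactSpace X] [T2Space X] [Nonempty X] [MulAction G X]
    [ContinuousSMul G X], ∃ x : X, ∀ g : G, g • x = x

open Pool.Agent.W335.EA

theorem isBiMetric_iff (d : FreeGroup ℕ → FreeGroup ℕ → ℝ) : IsBiMetric d ↔
    IsBI d ∧ (∀ g h, d g h = 0 → g = h) ∧ d ∈ {d | ∀ g h, d g h ≤ 1} := by
  constructor
  · rintro ⟨h1, h2, h3, h4, h5, h6⟩
    exact ⟨⟨fun g => (h1 g g).2 rfl, h2, h3, h4, h5⟩, fun g h => (h1 g h).1, h6⟩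
  · rintro ⟨⟨h1, h2, h3, h4, h5⟩, h6, h7⟩
    exact ⟨fun g h => ⟨h6 g h, fun e => by rw [e]; exact h1 h⟩, h2, h3, h4, h5, h7⟩

theorem isClosed_le_one : IsClosed {d : FreeGroup ℕ → FreeGroup ℕ → ℝ | ∀ g h, d g h ≤ 1} := by
  have : {d : FreeGroup ℕ → FreeGroup ℕ → ℝ | ∀ g h, d g h ≤ 1} =
      ⋂ g, ⋂ h, {d | d g h ≤ 1} := by
    ext d
    exact ⟨fun h1 => mem_iInter.2 fun g => mem_iInter.2 fun h => h1 g h,
      fun h1 g h => mem_iInter.1 (mem_iInter.1 h1 g) h⟩
  rw [this]
  exact isClosed_iInter fun g => isClosed_iInter fun h => isClosed_le (by fun_prop) continuous_const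

theorem ea_of_crit (ρ : MetricsD) (hρ : ∀ F k ε, 0 < ε → Crit ρ.1 F k ε) (G : Type) [Group G]
    [MetricSpace G] (hG : IsCompletionOf ρ G) : IsExtremelyAmenable.{u} G := by
  intro X _ _ _ _ _ _
  obtain ⟨φ, hφ, hdense⟩ := hG.dense
  let A : MulAction (FreeGroup ℕ) X := MulAction.compHom X φ
  have hsmul : ∀ (g : FreeGroup ℕ) (x : X), g • x = φ g • x := fun _ _ => rfl
  have hcont : ContAct ρ.1 X := by
    intro g x U hU hgx
    have h1 : (fun p : G × X => p.1 • p.2) ⁻¹' U ∈ 𝓝 (φ g, x) :=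
      continuous_smul.continuousAt.preimage_mem_nhds (hU.mem_nhds hgx)
    rw [nhds_prod_eq, mem_prod_iff] at h1
    obtain ⟨t₁, ht₁, t₂, ht₂, h2⟩ := h1
    obtain ⟨ε, hε, h3⟩ := Metric.mem_nhds_iff.1 ht₁
    obtain ⟨V, hV, hVo, hxV⟩ := mem_nhds_iff.1 ht₂
    refine ⟨ε, hε, V, hVo, hxV, fun h hgh y hy => ?_⟩
    have h4 : φ h ∈ t₁ := h3 (by rw [Metric.mem_ball, dist_comm, hφ]; exact hgh)
    exact h2 (Set.mk_mem_prod h4 (hV hy))
  obtain ⟨x, hx⟩ := exists_fixed ((isBiMetric_iff ρ.1).1 ρ.2).1 hρ hcont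
  refine ⟨x, fun g => ?_⟩
  have h1 : IsClosed {g : G | g • x = x} :=
    isClosed_eq (continuous_id.smul continuous_const) continuous_const
  have h2 : range φ ⊆ {g : G | g • x = x} := by
    rintro _ ⟨a, rfl⟩
    exact hx a
  exact closure_minimal h2 h1 (hdense g)

/-- For comeagerly many bi-invariant metrics `ρ` on `F_∞` with values in `[0, 1]` the completion of
`(F_∞, ρ)` is extremely amenable. So the generic group is extremely amenable. -/
theorem result :
    (∀ᶠ ρ in residual MetricsD, ∀ (G : Type) [Group G] [MetricSpace G],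
      IsCompletionOf ρ G → IsExtremelyAmenable.{u} G) ∧
    ∀ (G : Type) [Group G] [MetricSpace G], IsGenericGroup G → IsExtremelyAmenable.{u} G := by
  have hgen := generic isClosed_le_one isBiMetric_iff (by
    intro d₀ hd₀ B
    exact ⟨1, le_rfl, fun q _ => hd₀.2.2.2.2.2 _ _, fun d hd => hd⟩)
  have h1 : ∀ᶠ ρ in residual MetricsD, ∀ F k ε, 0 < ε → Crit ρ.1 F k ε :=
    residual_of_dense_Gδ hgen.1 hgen.2
  have : BaireSpace MetricsD := baire isClosed_le_one isBiMetric_iff
  have : Nonempty MetricsD := by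
    classical
    refine ⟨⟨fun g h => if g = h then 0 else 1, ?_, ?_, ?_, ?_, ?_, ?_⟩⟩
    · intro g h
      by_cases hgh : g = h <;> simp [hgh]
    · intro g h
      by_cases hgh : g = h
      · simp [hgh]
      · simp [hgh, Ne.symm hgh]
    · intro g h k
      by_cases h1 : g = h
      · subst h1; simp
      · by_cases h2 : g = k
        · subst h2; simp [h1, Ne.symm h1]
        · by_cases h3 : h = k
          · subst h3; simp
          · simp [h1, h2, h3]
    · intro g h k
      simp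
    · intro g h k
      simp
    · intro g h
      by_cases hgh : g = h <;> simp [hgh]
  refine ⟨?_, fun G _ _ hG => ?_⟩
  · filter_upwards [h1] with ρ hρ G _ _ hG
    exact ea_of_crit ρ hρ G hG
  · have h2 : ∀ᶠ ρ in residual MetricsD, IsCompletionOf ρ G := hG
    obtain ⟨ρ, hρ1, hρ2⟩ := (dense_of_mem_residual (h1.and h2)).nonempty
    exact ea_of_crit ρ hρ1 G hρ2

end Pool.Agent.Results.MP_2bb948_al.GenericGroupExtremelyAmenable
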